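import Mathlib

/-!
Continuous cochains of a topological group `G` with values in a commutative topological ring `R`
on which `G` acts through a character `χ : G →* R`.
-/

namespace CC

variable {G : Type*} [Group G] [TopologicalSpace G]
variable {R : Type*} [CommRing R] [TopologicalSpace R] [IsTopologicalRing R]

/-- continuous 1-cocycles -/
def Z1 (χ : G →* R) : Submodule R (G → R) where
  carrier := {f | Continuous f ∧ ∀ g h, f (g * h) = f g + χ g * f h}
  zero_mem' := ⟨continuous_const, fun _ _ => by simp⟩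
  add_mem' := by
    rintro a b ⟨ha, ha'⟩ ⟨hb, hb'⟩
    exact ⟨ha.add hb, fun x y => by simp only [Pi.add_apply, ha', hb']; ring⟩
  smul_mem' := by
    rintro r a ⟨ha, ha'⟩
    exact ⟨ha.const_smul r, fun x y => by simp only [Pi.smul_apply, smul_eq_mul, ha']; ring⟩

/-- continuous 2-cocycles -/
def Z2 (χ : G →* R) : Submodule R (G → G → R) where
  carrier := {z | Continuous (fun x : G × G => z x.1 x.2) ∧
    ∀ g h k, χ g * z h k + z g (h * k) = z (g * h) k + z g h}
  zero_mem' := ⟨continuous_const, fun _ _ _ => by simp⟩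
  add_mem' := by
    rintro a b ⟨ha, ha'⟩ ⟨hb, hb'⟩
    refine ⟨ha.add hb, fun g h k => ?_⟩
    simp only [Pi.add_apply]
    linear_combination ha' g h k + hb' g h k
  smul_mem' := by
    rintro r a ⟨ha, ha'⟩
    refine ⟨ha.const_smul r, fun g h k => ?_⟩
    simp only [Pi.smul_apply, smul_eq_mul]
    linear_combination r * ha' g h k

/-- coboundaries of continuous 1-cochains -/
def B2 (χ : G →* R) : Submodule R (G → G → R) where
  carrier := {z | ∃ f : G → R, Continuous f ∧ ∀ g h, z g h = f g + χ g * f h - f (g * h)}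
  zero_mem' := ⟨0, continuous_const, fun _ _ => by simp⟩
  add_mem' := by
    rintro a b ⟨f, hf, hf'⟩ ⟨k, hk, hk'⟩
    refine ⟨f + k, hf.add hk, fun g h => ?_⟩
    simp only [Pi.add_apply, hf', hk']; ring
  smul_mem' := by
    rintro r a ⟨f, hf, hf'⟩
    refine ⟨r • f, hf.const_smul r, fun g h => ?_⟩
    simp only [Pi.smul_apply, smul_eq_mul, hf']; ring

/-- the product of two functions of one variable, as a function of two variables (cup product of a
cocycle with values in `R(χ)` and a homomorphism to `R`). -/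
def cup (a b : G → R) : G → G → R := fun g h => a g * b h

theorem mem_Z1 {χ : G →* R} {f : G → R} :
    f ∈ Z1 χ ↔ Continuous f ∧ ∀ g h, f (g * h) = f g + χ g * f h := Iff.rfl

theorem mem_Z2 {χ : G →* R} {z : G → G → R} :
    z ∈ Z2 χ ↔ Continuous (fun x : G × G => z x.1 x.2) ∧
      ∀ g h k, χ g * z h k + z g (h * k) = z (g * h) k + z g h := Iff.rfl

theorem mem_B2 {χ : G →* R} {z : G → G → R} :
    z ∈ B2 χ ↔ ∃ f : G → R, Continuous f ∧ ∀ g h, z g h = f g + χ g * f h - f (g * h) := Iff.rfl

theorem B2_le_Z2 [IsTopologicalGroup G] {χ : G →* R} (hχ : Continuous χ) : B2 χ ≤ Z2 χ := by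
  rintro z ⟨f, hf, hz⟩
  refine ⟨?_, fun g h k => ?_⟩
  · have : (fun x : G × G => z x.1 x.2) = fun x => f x.1 + χ x.1 * f x.2 - f (x.1 * x.2) := by
      funext x; exact hz _ _
    rw [this]
    fun_prop
  · simp only [hz, map_mul, mul_assoc]; ring

theorem cup_mem_Z2 [IsTopologicalGroup G] {χ : G →* R} {a b : G → R} (ha : a ∈ Z1 χ)
    (hb : b ∈ Z1 (1 : G →* R)) : cup a b ∈ Z2 χ := by
  refine ⟨?_, fun g h k => ?_⟩
  · exact (ha.1.comp continuous_fst).mul (hb.1.comp continuous_snd)
  · simp only [cup, ha.2, hb.2, MonoidHom.one_apply, one_mul]; ring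

end CC
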